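import Pool.Agent.N931.PN.Stm2
import Pool.Agent.N144.EW.DetA

/-!
# PN/LGW: four arms from a long excursion of faces, in the bulk (helper645)
-/

set_option autoImplicit false

namespace Pool.Agent.N645.PN.LGW

open H974 H12S H389NS H984N H984P H342P Finset
open Pool.Agent.N116.EW
open Pool.Agent.N931.PN
open Pool.Agent.N144.EW

/-- a step changes the distance by at most one -/
theorem step_sd {H : Set Edg} {x x' c : Vtx} (h : Adj H x x') : sd x' c ≤ sd x c + 1 := by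
  obtain ⟨⟨a, b, _ | _⟩, _, h | h⟩ := h <;>
  · simp only [src_mk, tgt_false, tgt_true] at h
    obtain ⟨h1, h2⟩ := h
    subst h1; subst h2
    rw [sd_le_iff]
    have h3 : ∀ u : Vtx, (-(sd u c) ≤ u.1 - c.1 ∧ u.1 - c.1 ≤ sd u c) ∧
        (-(sd u c) ≤ u.2 - c.2 ∧ u.2 - c.2 ≤ sd u c) := fun u => sd_le_iff.1 le_rfl
    have h4 := h3 (a, b)
    have h5 := h3 (a + 1, b)
    have h6 := h3 (a, b + 1)
    simp only at h4 h5 h6 ⊢
    omega

/-- the first step of a path outside of a box starts on the boundary of the box -/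
theorem start_bd {H : Set Edg} {c : Vtx} {d : ℕ} {u w : Vtx} (hu : sd u c ≤ d)
    (hw : (d : ℤ) < sd w c) (h : Reach (H \ ↑(blk c d)) u w) : (d : ℤ) ≤ sd u c := by
  rcases Relation.ReflTransGen.cases_head h with rfl | ⟨x, hx, -⟩
  · omega
  · by_contra hc
    push Not at hc
    have h1 := step_sd (c := c) hx
    obtain ⟨g, hg, hcase⟩ := hx
    apply hg.2
    rw [Finset.mem_coe, blk_iff]
    rcases hcase with ⟨h2, h3⟩ | ⟨h2, h3⟩
    · rw [h2, h3]; constructor <;> omega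
    · rw [h2, h3]; constructor <;> omega

/-- a crossing of the annulus -/
theorem crossing {H : Set Edg} {c x w : Vtx} {d R : ℕ} (hdR : d < R) (hx : sd x c ≤ d)
    (hw : (R : ℤ) ≤ sd w c) (h : Reach H x w) : ∃ u ∈ bdB c d, ∃ w' ∈ bdB c R,
      Reach (H ∩ ↑(blk c R \ blk c d)) u w' ∧ Reach H x w' := by
  obtain ⟨w', hw', h1⟩ := exitBox hw h (hx.trans (by exact_mod_cast hdR.le))
  obtain ⟨u, hu, h2⟩ := lastBox hx h1
  have hw'2 : (R : ℤ) ≤ sd w' c := by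
    obtain ⟨-, -, h3⟩ := hw'
    rw [le_sd_iff]
    rcases h3 with h3 | h3
    · left
      rcases abs_choice (w'.1 - c.1) with h4 | h4
      · left; omega
      · right; omega
    · right
      rcases abs_choice (w'.2 - c.2) with h4 | h4
      · left; omega
      · right; omega
  have h3 : (d : ℤ) ≤ sd u c := start_bd hu (by omega) h2
  refine ⟨u, bdB_iff hu h3, w', hw', h2.mono ?_, h1.mono Set.inter_subset_left⟩
  rintro g ⟨⟨h4, h5⟩, h6⟩
  refine ⟨h4, ?_⟩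
  rw [Finset.coe_sdiff]
  exact ⟨h5, h6⟩

/-- an edge of the dual annulus -/
theorem ann_mem {z : Vtx} {d R : ℕ} (hdR : d + 8 ≤ R) {g : Edg}
    (h : dl g ∈ blk z (R - 2) \ blk z (d + 2)) : g ∈ AN z d R := by
  rw [mem_sdiff, blk_iff, src_dl, tgt_dl] at h
  obtain ⟨⟨h1, h2⟩, h3⟩ := h
  have hR : ((R - 2 : ℕ) : ℤ) = (R : ℤ) - 2 := by omega
  rw [hR] at h1 h2
  unfold AN
  rw [mem_sdiff, blk_iff]
  constructor
  · obtain ⟨x, y, _ | _⟩ := g
    · simp only [sd_le_iff, src_mk, tgt_false, dsrc_false, dtgt_mk] at h1 h2 ⊢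
      omega
    · simp only [sd_le_iff, src_mk, tgt_true, dsrc_true, dtgt_mk] at h1 h2 ⊢
      omega
  · intro h4
    apply h3
    rw [blk_iff] at h4
    have h5 := dface_near h4.1 h4.2
    rw [blk_iff, src_dl, tgt_dl]
    push_cast
    constructor <;> omega

theorem main : Pool.Agent.N931.PN.S_LGW := by
  intro D hD G B hG z d R ρ hd hdR hρ hbd hB hbad
  obtain ⟨e, heG, heF, x, y, z', -, hyz, -, hyc, hz', w, hw, hzw⟩ := hbad
  have heB : e ∈ B := by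
    by_contra h
    exact heF (Or.inl (Finset.mem_coe.2 (mem_sdiff.2 ⟨heG, h⟩)))
  have heb := blk_iff.1 (hB heB)
  have hfn := dface_near heb.1 heb.2
  have hy1 : sd y z ≤ d + 1 := by
    rcases hyz with ⟨h, _⟩ | ⟨h, _⟩
    · rw [h]; exact hfn.1
    · rw [h]; exact hfn.2
  have hz1 : sd z' z ≤ d + 1 := by
    rcases hyz with ⟨_, h⟩ | ⟨_, h⟩
    · rw [h]; exact hfn.2
    · rw [h]; exact hfn.1
  have hR2 : ((R - 2 : ℕ) : ℤ) = (R : ℤ) - 2 := by omega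
  have hd2 : ((d + 2 : ℕ) : ℤ) = (d : ℤ) + 2 := by push_cast; ring
  -- the edges of the annulus
  have hin : ∀ g ∈ AN z d R, g ∈ D.edges ∧ g ∉ D.wir := by
    intro g hg
    unfold AN at hg
    rw [mem_sdiff, blk_iff] at hg
    have h1 := bd_near (D := D) hg.1.1
    refine ⟨edges_of_bd (by omega), fun hw => ?_⟩
    have := bd_wir hw
    omega
  -- the first arm
  obtain ⟨g0, hg0, hg0y⟩ := hyc
  have hr1 : Reach (dl '' (↑D.edges \ D.cfg G : Set Edg)) y g0 := reach_dl.2 hg0y.symm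
  have hg0z : (R : ℤ) + 4 ≤ sd g0 z := outer_far hg0 hbd
  obtain ⟨u, hu, w1, hw1, hc1, hc1'⟩ := crossing (c := z) (d := d + 2) (R := R - 2) (by omega)
    (by rw [hd2]; omega) (by rw [hR2]; omega) hr1
  -- the second arm
  have hr2 : Reach (dl '' {g | g ∈ D.edges ∧ g ∉ D.cfg (G \ B) ∧ dsrc g ∉ D.dclu G ∧
      dtgt g ∉ D.dclu G}) z' w := reach_dl.2 hzw
  have hwz : (R : ℤ) - 2 ≤ sd w z := by
    rw [le_sd_iff] at hw ⊢
    rw [sd_le_iff] at hz1
    have : (R : ℤ) + d + 4 ≤ ρ := by exact_mod_cast hρ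
    omega
  obtain ⟨u', hu', w2, hw2, hc2, -⟩ := crossing (c := z) (d := d + 2) (R := R - 2) (by omega)
    (by rw [hd2]; omega) (by rw [hR2]; exact hwz) hr2
  -- the cluster
  have hK : ∀ v v' : Vtx, Reach (dl '' (↑D.edges \ D.cfg G : Set Edg)) v v' → v ∈ D.dclu G →
      v' ∈ D.dclu G := by
    rintro v v' h ⟨g, hg, hgv⟩
    exact ⟨g, hg, hgv.trans (reach_dl.1 h)⟩
  have hsub : (↑(dmp (AN z d R \ G)) : Set Edg) ∩ ↑(blk z (R - 2) \ blk z (d + 2)) ⊆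
      dl '' (↑D.edges \ D.cfg G : Set Edg) := by
    rintro g ⟨h1, -⟩
    rw [coe_dmp] at h1
    obtain ⟨g', hg', rfl⟩ := h1
    rw [Finset.mem_coe, mem_sdiff] at hg'
    obtain ⟨h2, h3⟩ := hin g' hg'.1
    exact ⟨g', ⟨h2, fun h => h.elim (fun h => hg'.2 h) h3⟩, rfl⟩
  unfold D4 A4a
  refine ⟨u, hu, u', hu', ⟨w1, hw1, hc1.mono ?_⟩, ⟨w2, hw2, hc2.mono ?_⟩, ?_⟩
  · rintro _ ⟨⟨g, ⟨_, hg2⟩, rfl⟩, hg3⟩
    refine ⟨?_, hg3⟩
    rw [coe_dmp]
    refine ⟨g, ?_, rfl⟩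
    rw [Finset.mem_coe, mem_sdiff]
    exact ⟨ann_mem hdR (Finset.mem_coe.1 hg3), fun h => hg2 (Or.inl h)⟩
  · rintro _ ⟨⟨g, ⟨_, hg2, -, -⟩, rfl⟩, hg3⟩
    refine ⟨?_, hg3⟩
    rw [coe_dmp]
    refine ⟨g, ?_, rfl⟩
    have h4 := ann_mem hdR (Finset.mem_coe.1 hg3)
    rw [Finset.mem_coe, mem_sdiff]
    refine ⟨h4, fun h => hg2 (Or.inl ?_)⟩
    rw [Finset.mem_coe, mem_sdiff]
    refine ⟨h, fun hb => ?_⟩
    unfold AN at h4
    exact (mem_sdiff.1 h4).2 (hB hb)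
  · intro hcon
    -- `u` is in the cluster
    have hyK : y ∈ D.dclu G := ⟨g0, hg0, hg0y⟩
    have hw1K : w1 ∈ D.dclu G := hK y w1 hc1' hyK
    have huK : u ∈ D.dclu G := hK w1 u (Reach.symm (hc1.mono Set.inter_subset_left)) hw1K
    have hu'K : u' ∈ D.dclu G := hK u u' (hcon.mono hsub) huK
    -- `u'` is not in the cluster
    have hne : u' ≠ w2 := by
      rintro rfl
      obtain ⟨h1, h2, -⟩ := hu'
      obtain ⟨-, -, h3⟩ := hw2
      omega
    rcases Relation.ReflTransGen.cases_head hc2 with h | ⟨v, hv, -⟩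
    · exact hne h
    · obtain ⟨g, ⟨⟨g', ⟨_, _, h3, h4⟩, rfl⟩, _⟩, hcase⟩ := hv
      rw [src_dl, tgt_dl] at hcase
      rcases hcase with ⟨h5, _⟩ | ⟨_, h5⟩
      · exact h3 (h5 ▸ hu'K)
      · exact h4 (h5 ▸ hu'K)

end Pool.Agent.N645.PN.LGW
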